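import Mathlib

/-!
# MP_59a3d4_lc: a decomposition and a basis of a countably infinite-dimensional space with no
good splitting.

`R` has basis `x 0, y 0, x 1, y 1, …`; `V₁` is spanned by `x (n+1) + y n` and `V₂` by
`y n - x n + x (n+1)`.
-/

namespace Pool.Agent.Results.MP_59a3d4_lc.NoGoodSplitting

open Finsupp

universe u

/-- A good splitting of the basis `B` with respect to `(V₁, V₂)`: a partition of `B` into the two
parts `B₁ = B '' S` and `B₂ = B '' Sᶜ` with `V₁ ⊕ sp(B₁) = R = V₂ ⊕ sp(B₂)`. -/
def IsGoodSplitting {K R ι : Type*} [Field K] [AddCommGroup R] [Module K R]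
    (B : Module.Basis ι K R) (V₁ V₂ : Submodule K R) (S : Set ι) : Prop :=
  IsCompl V₁ (Submodule.span K (B '' S)) ∧ IsCompl V₂ (Submodule.span K (B '' Sᶜ))

section
variable (K : Type u) [Field K]

/-- The space with basis `x 0, y 0, x 1, y 1, …`. -/
abbrev R : Type u := (ℕ ⊕ ℕ) →₀ K

noncomputable def x (n : ℕ) : R K := single (Sum.inl n) 1
noncomputable def y (n : ℕ) : R K := single (Sum.inr n) 1

noncomputable def v (n : ℕ) : R K := x K (n + 1) + y K n
noncomputable def w (n : ℕ) : R K := y K n - x K n + x K (n + 1)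

noncomputable def V₁ : Submodule K (R K) := Submodule.span K (Set.range (v K))
noncomputable def V₂ : Submodule K (R K) := Submodule.span K (Set.range (w K))

lemma v_inl_zero (c : ℕ →₀ K) : (linearCombination K (v K) c) (Sum.inl 0) = 0 := by
  induction c using Finsupp.induction_linear with
  | zero => simp
  | add f g hf hg => simp [map_add, hf, hg]
  | single n a => simp [v, x, y, single_apply]

lemma v_inl_succ (c : ℕ →₀ K) (m : ℕ) :
    (linearCombination K (v K) c) (Sum.inl (m + 1)) = c m := by
  induction c using Finsupp.induction_linear with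
  | zero => simp
  | add f g hf hg => simp [map_add, hf, hg]
  | single n a => simp [v, x, y, single_apply]

lemma v_inr (c : ℕ →₀ K) (m : ℕ) :
    (linearCombination K (v K) c) (Sum.inr m) = c m := by
  induction c using Finsupp.induction_linear with
  | zero => simp
  | add f g hf hg => simp [map_add, hf, hg]
  | single n a => simp [v, x, y, single_apply]

lemma w_inl_zero (c : ℕ →₀ K) : (linearCombination K (w K) c) (Sum.inl 0) = - c 0 := by
  induction c using Finsupp.induction_linear with
  | zero => simp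
  | add f g hf hg => simp [map_add, hf, hg]; ring
  | single n a => simp [w, x, y, single_apply]

lemma w_inl_succ (c : ℕ →₀ K) (m : ℕ) :
    (linearCombination K (w K) c) (Sum.inl (m + 1)) = c m - c (m + 1) := by
  induction c using Finsupp.induction_linear with
  | zero => simp
  | add f g hf hg => simp [map_add, hf, hg]; ring
  | single n a =>
    simp only [linearCombination_single, w, x, y, coe_smul, coe_add, coe_sub, Pi.smul_apply,
      Pi.add_apply, Pi.sub_apply, single_apply, Sum.inl.injEq, smul_eq_mul, reduceCtorEq, if_false,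
      Nat.add_right_cancel_iff]
    split_ifs <;> simp

lemma w_inr (c : ℕ →₀ K) (m : ℕ) :
    (linearCombination K (w K) c) (Sum.inr m) = c m := by
  induction c using Finsupp.induction_linear with
  | zero => simp
  | add f g hf hg => simp [map_add, hf, hg]
  | single n a => simp [w, x, y, single_apply]

lemma mem_V₁ (r : R K) :
    r ∈ V₁ K ↔ r (Sum.inl 0) = 0 ∧ ∀ n, r (Sum.inl (n + 1)) = r (Sum.inr n) := by
  unfold V₁
  rw [Finsupp.mem_span_range_iff_exists_finsupp]
  constructor
  · rintro ⟨c, hc⟩
    have hc' : linearCombination K (v K) c = r := hc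
    subst hc'
    refine ⟨v_inl_zero K c, fun n => ?_⟩
    rw [v_inl_succ, v_inr]
  · rintro ⟨h0, h1⟩
    refine ⟨r.comapDomain Sum.inr (Sum.inr_injective.injOn), ?_⟩
    change linearCombination K (v K) _ = r
    ext i
    rcases i with (_ | n) | n
    · rw [v_inl_zero, h0]
    · rw [v_inl_succ, h1]; rfl
    · rw [v_inr]; rfl

lemma mem_V₂ (r : R K) :
    r ∈ V₂ K ↔ r (Sum.inl 0) = - r (Sum.inr 0) ∧
      ∀ n, r (Sum.inl (n + 1)) = r (Sum.inr n) - r (Sum.inr (n + 1)) := by
  unfold V₂
  rw [Finsupp.mem_span_range_iff_exists_finsupp]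
  constructor
  · rintro ⟨c, hc⟩
    have hc' : linearCombination K (w K) c = r := hc
    subst hc'
    refine ⟨?_, fun n => ?_⟩
    · rw [w_inl_zero, w_inr]
    · rw [w_inl_succ, w_inr, w_inr]
  · rintro ⟨h0, h1⟩
    refine ⟨r.comapDomain Sum.inr (Sum.inr_injective.injOn), ?_⟩
    change linearCombination K (w K) _ = r
    ext i
    rcases i with (_ | n) | n
    · rw [w_inl_zero, h0]; rfl
    · rw [w_inl_succ, h1]; rfl
    · rw [w_inr]; rfl

lemma v_mem (n : ℕ) : v K n ∈ V₁ K := Submodule.subset_span ⟨n, rfl⟩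
lemma w_mem (n : ℕ) : w K n ∈ V₂ K := Submodule.subset_span ⟨n, rfl⟩

lemma x_mem_sup (n : ℕ) : x K n ∈ V₁ K ⊔ V₂ K := by
  have : x K n = v K n - w K n := by simp only [v, w]; abel
  rw [this]
  exact Submodule.sub_mem _ (Submodule.mem_sup_left (v_mem K n))
    (Submodule.mem_sup_right (w_mem K n))

lemma y_mem_sup (n : ℕ) : y K n ∈ V₁ K ⊔ V₂ K := by
  have : y K n = v K n - x K (n + 1) := by simp [v]
  rw [this]
  exact Submodule.sub_mem _ (Submodule.mem_sup_left (v_mem K n)) (x_mem_sup K (n + 1))

lemma isCompl : IsCompl (V₁ K) (V₂ K) := by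
  constructor
  · rw [Submodule.disjoint_def]
    intro r h1 h2
    rw [mem_V₁] at h1
    rw [mem_V₂] at h2
    obtain ⟨a0, a1⟩ := h1
    obtain ⟨b0, b1⟩ := h2
    have hy : ∀ n, r (Sum.inr n) = 0 := by
      intro n
      rcases n with _ | n
      · rw [a0] at b0
        exact neg_eq_zero.mp b0.symm
      · have h3 := b1 n
        rw [a1 n] at h3
        have : r (Sum.inr (n + 1)) = 0 := by linear_combination h3
        exact this
    ext i
    rcases i with (_ | n) | n
    · exact a0
    · rw [a1, hy]; rfl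
    · exact hy n
  · rw [codisjoint_iff, eq_top_iff]
    intro r _
    rw [← Finsupp.sum_single r, Finsupp.sum]
    refine Submodule.sum_mem _ fun i _ => ?_
    have h : single i (r i) = r i • (single i (1 : K)) := by simp
    rw [h]
    refine Submodule.smul_mem _ _ ?_
    rcases i with n | n
    · exact x_mem_sup K n
    · exact y_mem_sup K n

/-- A functional killing `W` and all `B i`, `i ∈ T`, is zero if `W` and `B '' T` span. -/
lemma functional_zero {R ι : Type*} [AddCommGroup R] [Module K R]
    (B : Module.Basis ι K R) (W : Submodule K R) (T : Set ι)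
    (h : IsCompl W (Submodule.span K (B '' T))) (φ : R →ₗ[K] K)
    (h1 : ∀ r ∈ W, φ r = 0) (h2 : ∀ i ∈ T, φ (B i) = 0) (r : R) : φ r = 0 := by
  have h3 : W ⊔ Submodule.span K (B '' T) ≤ LinearMap.ker φ := by
    refine sup_le (fun r hr => h1 r hr) ?_
    rw [Submodule.span_le]
    rintro _ ⟨i, hi, rfl⟩
    exact h2 i hi
  have h4 : r ∈ W ⊔ Submodule.span K (B '' T) := by rw [h.sup_eq_top]; trivial
  exact h3 h4

lemma no_good (S : Set (ℕ ⊕ ℕ)) :
    ¬ IsGoodSplitting (Finsupp.basisSingleOne (R := K) (ι := ℕ ⊕ ℕ)) (V₁ K) (V₂ K) S := by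
  rintro ⟨h1, h2⟩
  have hB : ∀ i, (Finsupp.basisSingleOne (R := K) (ι := ℕ ⊕ ℕ)) i = single i 1 := by
    intro i; simp
  -- step 1
  have s1 : Sum.inl 0 ∈ S := by
    by_contra hn
    have := functional_zero K _ _ _ h1 (Finsupp.lapply (Sum.inl 0)) (fun r hr => by
      rw [mem_V₁] at hr; simpa using hr.1) (fun i hi => by
      rw [hB]
      have : i ≠ Sum.inl 0 := fun h => hn (h ▸ hi)
      simp [single_apply, this]) (single (Sum.inl 0) 1)
    simp at this
  -- step 2
  have s2 : ∀ n, ¬ (Sum.inl (n + 1) ∈ S ∧ Sum.inr n ∈ S) := by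
    rintro n ⟨ha, hb⟩
    have hv : v K n ∈ Submodule.span K
        ((Finsupp.basisSingleOne (R := K) (ι := ℕ ⊕ ℕ)) '' S) := by
      refine Submodule.add_mem _ (Submodule.subset_span ⟨_, ha, ?_⟩)
        (Submodule.subset_span ⟨_, hb, ?_⟩)
      · rw [hB]; rfl
      · rw [hB]; rfl
    have h0 := Submodule.disjoint_def.mp h1.disjoint _ (v_mem K n) hv
    have h00 : (v K n) (Sum.inr n) = 0 := by rw [h0]; rfl
    simp [v, x, y] at h00
  have s3 : ∀ n, (Sum.inl (n + 1) ∈ S ∨ Sum.inr n ∈ S) := by
    intro n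
    by_contra hn
    push Not at hn
    have := functional_zero K _ _ _ h1
      (Finsupp.lapply (Sum.inl (n + 1)) - Finsupp.lapply (Sum.inr n)) (fun r hr => by
        rw [mem_V₁] at hr
        simp [hr.2 n]) (fun i hi => by
        rw [hB]
        have e1 : i ≠ Sum.inl (n + 1) := fun h => hn.1 (h ▸ hi)
        have e2 : i ≠ Sum.inr n := fun h => hn.2 (h ▸ hi)
        simp [single_apply, e1, e2]) (single (Sum.inl (n + 1)) 1)
    simp at this
  -- step 3
  have key : ∀ f : ℕ → K, f 0 = 1 → (∀ n, Sum.inl (n + 1) ∉ S → f (n + 1) = 0) →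
      (∀ n, Sum.inr n ∉ S → f n - f (n + 1) = 0) → False := by
    intro f hf0 hf1 hf2
    set g : ℕ ⊕ ℕ → K := Sum.elim f (fun n => f n - f (n + 1)) with hg
    set φ : R K →ₗ[K] K := Finsupp.linearCombination K g with hφ
    have hx : ∀ n, φ (x K n) = f n := by intro n; simp [hφ, x, hg]
    have hy : ∀ n, φ (y K n) = f n - f (n + 1) := by intro n; simp [hφ, y, hg]
    have hw : ∀ r ∈ V₂ K, φ r = 0 := by
      have : V₂ K ≤ LinearMap.ker φ := by
        unfold V₂
        rw [Submodule.span_le]
        rintro _ ⟨n, rfl⟩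
        change φ (w K n) = 0
        simp only [w, map_add, map_sub, hx, hy]
        ring
      exact fun r hr => this hr
    have := functional_zero K _ _ _ h2 φ hw (fun i hi => by
      rw [hB]
      rcases i with (_ | n) | n
      · exact absurd s1 hi
      · have := hx (n + 1)
        rw [x] at this
        rw [this]
        exact hf1 n hi
      · have := hy n
        rw [y] at this
        rw [this]
        exact hf2 n hi) (x K 0)
    rw [hx, hf0] at this
    exact one_ne_zero this
  by_cases hall : ∀ n, Sum.inl (n + 1) ∈ S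
  · refine key (fun _ => 1) rfl (fun n hn => absurd (hall n) hn) (fun n _ => sub_self _)
  · push Not at hall
    classical
    set k := Nat.find hall with hk
    have hk1 : Sum.inl (k + 1) ∉ S := Nat.find_spec hall
    have hk2 : ∀ j < k, Sum.inl (j + 1) ∈ S := fun j hj => by
      have := Nat.find_min hall hj
      simpa using this
    refine key (fun n => if n ≤ k then 1 else 0) (by simp) ?_ ?_
    · intro n hn
      have : ¬ n + 1 ≤ k := fun h => hn (hk2 n (by omega))
      simp [this]
    · intro n hn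
      have hnk : n ≠ k := by
        rintro rfl
        rcases s3 k with h | h
        · exact hk1 h
        · exact hn h
      by_cases hlt : n < k
      · have e1 : n ≤ k := hlt.le
        have e2 : n + 1 ≤ k := hlt
        simp [e1, e2]
      · have e1 : ¬ n ≤ k := by omega
        have e2 : ¬ n + 1 ≤ k := by omega
        simp [e1, e2]

end

/-- For every field `K`, the countably infinite-dimensional space `R = (ℕ ⊕ ℕ) →₀ K` with its
standard basis has a decomposition `V₁ ⊕ V₂ = R` for which the standard basis has no good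
splitting. Membership in `V₁` and in `V₂` is given by explicit conditions on coordinates. -/
theorem result (K : Type u) [Field K] :
    ∃ V₁ V₂ : Submodule K ((ℕ ⊕ ℕ) →₀ K), IsCompl V₁ V₂ ∧
      (∀ r, r ∈ V₁ ↔ r (Sum.inl 0) = 0 ∧ ∀ n, r (Sum.inl (n + 1)) = r (Sum.inr n)) ∧
      (∀ r, r ∈ V₂ ↔ r (Sum.inl 0) = - r (Sum.inr 0) ∧
        ∀ n, r (Sum.inl (n + 1)) = r (Sum.inr n) - r (Sum.inr (n + 1))) ∧
      ¬ ∃ S : Set (ℕ ⊕ ℕ),
        IsGoodSplitting (Finsupp.basisSingleOne (R := K) (ι := ℕ ⊕ ℕ)) V₁ V₂ S := by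
  refine ⟨V₁ K, V₂ K, isCompl K, mem_V₁ K, mem_V₂ K, ?_⟩
  rintro ⟨S, hS⟩
  exact no_good K S hS

end Pool.Agent.Results.MP_59a3d4_lc.NoGoodSplitting
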